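import Pool.Agent.Lead.MK.Stubs

/-!
# Project MK: assembly
-/

set_option autoImplicit false

namespace Pool.Agent.Lead.MK

open Finset

theorem loc (hH : S_HEN) (k p : ℕ) (hk : 3 ≤ k) (hp : p.Prime) (hpk : ¬ p ∣ k) (C : ℝ)
    (hF : (p : ℝ) ^ k * (1 - C * (p : ℝ) ^ (-(3 / 2) : ℝ)) ≤ (Prim k (k + 1) p : ℝ) + 1) :
    (p : ℝ) ^ (k * k) * (1 + 1 / (p : ℝ) - (C + 1) * (p : ℝ) ^ (-(3 / 2) : ℝ)) ≤
      (Sol k (k + 1) (p ^ k) : ℝ) := by
  have h := hH k (k + 1) p (by omega) (by omega) hp hpk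
  have hp0 : (0 : ℝ) < p := by exact_mod_cast hp.pos
  have hp1 : (1 : ℝ) ≤ p := by exact_mod_cast hp.one_lt.le
  have h' : (p : ℝ) ^ ((k - 1) * (k + 1)) + (Prim k (k + 1) p : ℝ) * (p : ℝ) ^ ((k - 1) * (k + 1 - 1))
      ≤ (Sol k (k + 1) (p ^ k) : ℝ) := by exact_mod_cast h
  have e1 : (p : ℝ) ^ (k * k) * (1 / (p : ℝ)) = (p : ℝ) ^ ((k - 1) * (k + 1)) := by
    have : k * k = (k - 1) * (k + 1) + 1 := by
      obtain ⟨j, rfl⟩ : ∃ j, k = j + 1 := ⟨k - 1, by omega⟩
      simp only [Nat.add_sub_cancel]; ring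
    rw [this, pow_succ]
    field_simp
  have e2 : (p : ℝ) ^ (k * k) = (p : ℝ) ^ k * (p : ℝ) ^ ((k - 1) * (k + 1 - 1)) := by
    rw [← pow_add]
    congr 1
    obtain ⟨j, rfl⟩ : ∃ j, k = j + 1 := ⟨k - 1, by omega⟩
    simp only [Nat.add_sub_cancel]; ring
  have e3 : (p : ℝ) ^ ((k - 1) * (k + 1 - 1)) ≤ (p : ℝ) ^ (k * k) * (p : ℝ) ^ (-(3 / 2) : ℝ) := by
    rw [e2]
    have : (1 : ℝ) ≤ (p : ℝ) ^ k * (p : ℝ) ^ (-(3 / 2) : ℝ) := by
      rw [← Real.rpow_natCast, ← Real.rpow_add hp0]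
      apply Real.one_le_rpow hp1
      have : (3 : ℝ) ≤ k := by exact_mod_cast hk
      linarith
    have hpos : (0 : ℝ) < (p : ℝ) ^ ((k - 1) * (k + 1 - 1)) := by positivity
    calc (p : ℝ) ^ ((k - 1) * (k + 1 - 1)) = 1 * (p : ℝ) ^ ((k - 1) * (k + 1 - 1)) := by ring
      _ ≤ ((p : ℝ) ^ k * (p : ℝ) ^ (-(3 / 2) : ℝ)) * (p : ℝ) ^ ((k - 1) * (k + 1 - 1)) :=
        mul_le_mul_of_nonneg_right this hpos.le
      _ = _ := by ring
  have e4 : ((p : ℝ) ^ k * (1 - C * (p : ℝ) ^ (-(3 / 2) : ℝ)) - 1) *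
      (p : ℝ) ^ ((k - 1) * (k + 1 - 1)) ≤
      (Prim k (k + 1) p : ℝ) * (p : ℝ) ^ ((k - 1) * (k + 1 - 1)) :=
    mul_le_mul_of_nonneg_right (by linarith) (by positivity)
  calc (p : ℝ) ^ (k * k) * (1 + 1 / (p : ℝ) - (C + 1) * (p : ℝ) ^ (-(3 / 2) : ℝ))
      = (p : ℝ) ^ (k * k) * (1 / (p : ℝ)) +
        (p : ℝ) ^ (k * k) * (1 - C * (p : ℝ) ^ (-(3 / 2) : ℝ)) -
        (p : ℝ) ^ (k * k) * (p : ℝ) ^ (-(3 / 2) : ℝ) := by ring
    _ ≤ (p : ℝ) ^ ((k - 1) * (k + 1)) +
        (p : ℝ) ^ k * (p : ℝ) ^ ((k - 1) * (k + 1 - 1)) * (1 - C * (p : ℝ) ^ (-(3 / 2) : ℝ)) -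
        (p : ℝ) ^ ((k - 1) * (k + 1 - 1)) := by rw [e1, ← e2]; linarith
    _ = (p : ℝ) ^ ((k - 1) * (k + 1)) + ((p : ℝ) ^ k * (1 - C * (p : ℝ) ^ (-(3 / 2) : ℝ)) - 1) *
      (p : ℝ) ^ ((k - 1) * (k + 1 - 1)) := by ring
    _ ≤ _ := by linarith

/-- many points on some sphere, in terms of the sieving limit `y` -/
theorem many (hH : S_HEN) (hF : S_FP) (hP : S_PRD) (hA : S_AVG) (hL : S_LOWP) (k : ℕ)
    (hk : 3 ≤ k) :
    ∃ (c : ℝ) (y₀ : ℕ), 0 < c ∧ 2 ≤ y₀ ∧ ∀ y : ℕ, y₀ ≤ y → ∃ n : ℕ, 1 ≤ n ∧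
      (n : ℝ) ≤ (k + 1) * (4 : ℝ) ^ (y * (k * k)) ∧
      c * Real.log y * rad k n ≤ NN k (k + 1) n := by
  obtain ⟨C, hC, hF⟩ := hF k hk
  obtain ⟨c, p₀, hc, hp₀, hpos, hlow⟩ := hL (C + 1) k (by linarith)
  obtain ⟨y₁, hy₁⟩ := exists_nat_gt (Real.exp (2 / c))
  refine ⟨c / (2 * (k + 1) ^ 2), max (max y₁ (p₀ + 1)) 2, by positivity, le_max_right _ _, ?_⟩
  intro y hy
  have hy1 : y₁ ≤ y := le_trans (le_trans (le_max_left _ _) (le_max_left _ _)) hy
  have hy2 : p₀ < y := le_trans (le_trans (le_max_right _ _) (le_max_left _ _)) hy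
  have hclog : 2 ≤ c * Real.log y := by
    have h1 : Real.exp (2 / c) < y := lt_of_lt_of_le hy₁ (by exact_mod_cast hy1)
    have h2 : 2 / c < Real.log y := by
      rw [Real.lt_log_iff_exp_lt (lt_trans (Real.exp_pos _) h1)]; exact h1
    rw [div_lt_iff₀ hc] at h2
    linarith
  set s := (Ioc p₀ y).filter Nat.Prime with hs
  have hsp : ∀ p ∈ s, p.Prime ∧ p₀ < p := fun p hp => by
    rw [hs, mem_filter, mem_Ioc] at hp; exact ⟨hp.2, hp.1.1⟩
  set Q := ∏ p ∈ s, p with hQ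
  have hQ1 : 1 ≤ Q := Nat.one_le_iff_ne_zero.2 (Finset.prod_ne_zero_iff.2 fun p hp =>
    (hsp p hp).1.ne_zero)
  have hQR : (1 : ℝ) ≤ Q := by exact_mod_cast hQ1
  have hsol : (Q : ℝ) ^ (k * k) * (c * Real.log y) ≤ (Sol k (k + 1) (Q ^ k) : ℝ) := by
    rw [hQ, hP k (k + 1) s fun p hp => (hsp p hp).1]
    push_cast
    rw [← Finset.prod_pow]
    calc (∏ p ∈ s, (p : ℝ) ^ (k * k)) * (c * Real.log y)
        ≤ (∏ p ∈ s, (p : ℝ) ^ (k * k)) *
          ∏ p ∈ s, (1 + 1 / (p : ℝ) - (C + 1) * (p : ℝ) ^ (-(3 / 2) : ℝ)) :=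
          mul_le_mul_of_nonneg_left (hlow y hy2) (prod_nonneg fun p _ => by positivity)
      _ = ∏ p ∈ s, ((p : ℝ) ^ (k * k) *
          (1 + 1 / (p : ℝ) - (C + 1) * (p : ℝ) ^ (-(3 / 2) : ℝ))) := prod_mul_distrib.symm
      _ ≤ ∏ p ∈ s, (Sol k (k + 1) (p ^ k) : ℝ) := by
          apply prod_le_prod
          · intro p hp
            exact mul_nonneg (by positivity) (hpos p (hsp p hp).1 (hsp p hp).2).le
          · intro p hp
            refine loc hH k p hk (hsp p hp).1 ?_ C (hF p (hsp p hp).1)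
            intro hd
            have := Nat.le_of_dvd (by omega) hd
            have := (hsp p hp).2
            omega
  obtain ⟨n, hn1, hn2, hn3⟩ := hA k (k + 1) Q (by omega) (by omega) hQ1
  have hQ4 : (Q : ℝ) ≤ (4 : ℝ) ^ y := by
    have h1 : Q ≤ primorial y := by
      rw [hQ, primorial]
      apply Finset.prod_le_prod_of_subset_of_one_le'
      · intro p hp
        rw [hs, mem_filter, mem_Ioc] at hp
        rw [mem_filter, mem_range]
        exact ⟨by omega, hp.2⟩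
      · intro p hp _
        rw [mem_filter] at hp
        exact hp.2.one_lt.le
    have h2 : Q ≤ 4 ^ y := h1.trans (primorial_le_four_pow y)
    exact_mod_cast h2
  have hrad : rad k n ≤ (k + 1) * (Q : ℝ) ^ k := by
    have hb : (n : ℝ) ≤ ((k + 1) * (Q : ℝ) ^ k) ^ (k : ℝ) := by
      rw [Real.rpow_natCast, mul_pow, ← pow_mul]
      have h1 : (n : ℝ) ≤ (k + 1) * (Q : ℝ) ^ (k * k) := by exact_mod_cast hn2
      refine h1.trans ?_
      apply mul_le_mul_of_nonneg_right _ (by positivity)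
      have : (1 : ℝ) ≤ (k : ℝ) + 1 := by
        have : (0 : ℝ) ≤ k := Nat.cast_nonneg k
        linarith
      calc ((k : ℝ) + 1) = (k + 1) ^ 1 := by ring
        _ ≤ (k + 1) ^ k := pow_le_pow_right₀ this (by omega)
    unfold rad
    calc (n : ℝ) ^ ((k : ℝ)⁻¹) ≤ (((k + 1) * (Q : ℝ) ^ k) ^ (k : ℝ)) ^ ((k : ℝ)⁻¹) :=
          Real.rpow_le_rpow (Nat.cast_nonneg n) hb (by positivity)
      _ = (k + 1) * (Q : ℝ) ^ k := by
          apply Real.rpow_rpow_inv (by positivity)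
          have : k ≠ 0 := by omega
          exact_mod_cast this
  refine ⟨n, hn1, ?_, ?_⟩
  · have h1 : (n : ℝ) ≤ (k + 1) * (Q : ℝ) ^ (k * k) := by exact_mod_cast hn2
    refine h1.trans ?_
    apply mul_le_mul_of_nonneg_left _ (by positivity)
    rw [show (4 : ℝ) ^ (y * (k * k)) = ((4 : ℝ) ^ y) ^ (k * k) from pow_mul _ _ _]
    exact pow_le_pow_left₀ (by positivity) hQ4 _
  · have hk1 : (0 : ℝ) < (k : ℝ) + 1 := by positivity
    have h1 : (Q : ℝ) ^ (k * k) * (c * Real.log y) - 1 ≤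
        (k + 1) * (Q : ℝ) ^ (k * k - k) * NN k (k + 1) n := by
      push_cast at hn3
      linarith
    have hQp : (1 : ℝ) ≤ (Q : ℝ) ^ (k * k - k) := one_le_pow₀ hQR
    have hsplit : (Q : ℝ) ^ (k * k) = (Q : ℝ) ^ (k * k - k) * (Q : ℝ) ^ k := by
      rw [← pow_add]
      congr 1
      have : k ≤ k * k := Nat.le_mul_self k
      omega
    have h2 : (Q : ℝ) ^ (k * k - k) * ((Q : ℝ) ^ k * (c * Real.log y) - 1) ≤
        (Q : ℝ) ^ (k * k - k) * ((k + 1) * NN k (k + 1) n) := by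
      rw [hsplit] at h1
      nlinarith
    have h3 : (Q : ℝ) ^ k * (c * Real.log y) - 1 ≤ (k + 1) * NN k (k + 1) n :=
      le_of_mul_le_mul_left h2 (by linarith)
    have hQk : (1 : ℝ) ≤ (Q : ℝ) ^ k := one_le_pow₀ hQR
    have h4 : (Q : ℝ) ^ k * (c * Real.log y) / 2 ≤ (k + 1) * NN k (k + 1) n := by
      have : 2 ≤ (Q : ℝ) ^ k * (c * Real.log y) := by nlinarith
      linarith
    calc c / (2 * (k + 1) ^ 2) * Real.log y * rad k n
        ≤ c / (2 * (k + 1) ^ 2) * Real.log y * ((k + 1) * (Q : ℝ) ^ k) := by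
          apply mul_le_mul_of_nonneg_left hrad
          have : 0 ≤ Real.log y := Real.log_natCast_nonneg y
          positivity
      _ = ((Q : ℝ) ^ k * (c * Real.log y) / 2) / (k + 1) := by field_simp
      _ ≤ ((k + 1) * NN k (k + 1) n) / (k + 1) := by gcongr
      _ = NN k (k + 1) n := by field_simp

theorem one_le_rad (k n : ℕ) (hn : 1 ≤ n) : 1 ≤ rad k n :=
  Real.one_le_rpow (by exact_mod_cast hn) (by positivity)

/-- the first part of the theorem -/
theorem main1 (hI : S_FIN) (hH : S_HEN) (hF : S_FP) (hP : S_PRD) (hA : S_AVG) (hL : S_LOWP)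
    (k : ℕ) (hk : 3 ≤ k) :
    ∃ c : ℝ, 0 < c ∧ ∀ R : ℝ, ∃ n : ℕ, 0 < n ∧ R ≤ rad k n ∧
      c * (rad k n * Real.log (Real.log (rad k n))) ≤ NN k (k + 1) n := by
  obtain ⟨c, y₀, hc, hy₀, h⟩ := many hH hF hP hA hL k hk
  refine ⟨c / 2, by positivity, fun R => ?_⟩
  have hk0 : (0 : ℝ) ≤ k := Nat.cast_nonneg k
  obtain ⟨R', hR'⟩ := exists_nat_gt (max R 1)
  have hR1 : R < R' := lt_of_le_of_lt (le_max_left _ _) hR'
  obtain ⟨y₁, hy₁⟩ := exists_nat_gt (Real.exp ((2 * (R' : ℝ) ^ k + 1) ^ (k + 1) / c))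
  obtain ⟨y₂, hy₂⟩ := exists_nat_gt ((k : ℝ) + 1 + 2 * (k * k))
  set y := max (max y₀ y₁) y₂ with hy
  have hyy0 : y₀ ≤ y := le_trans (le_max_left _ _) (le_max_left _ _)
  have hyy1 : y₁ ≤ y := le_trans (le_max_right _ _) (le_max_left _ _)
  have hyy2 : y₂ ≤ y := le_max_right _ _
  obtain ⟨n, hn1, hn2, hn3⟩ := h y hyy0
  have hr1 := one_le_rad k n hn1
  have hypos : (0 : ℝ) < y := by
    have : 0 < y := by omega
    exact_mod_cast this
  have hly : (2 * (R' : ℝ) ^ k + 1) ^ (k + 1) < c * Real.log y := by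
    have h1 : Real.exp ((2 * (R' : ℝ) ^ k + 1) ^ (k + 1) / c) < y :=
      lt_of_lt_of_le hy₁ (by exact_mod_cast hyy1)
    have h2 := (Real.lt_log_iff_exp_lt hypos).2 h1
    rw [div_lt_iff₀ hc] at h2
    linarith
  have hly0 : 0 ≤ Real.log y := Real.log_natCast_nonneg y
  refine ⟨n, by omega, ?_, ?_⟩
  · by_contra hlt
    push Not at hlt
    have hradlt : rad k n < R' := lt_trans hlt hR1
    have hnR : (n : ℝ) ≤ (R' : ℝ) ^ k := by
      have h0 : (rad k n) ^ k = n := by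
        unfold rad
        rw [← Real.rpow_natCast, Real.rpow_inv_rpow (Nat.cast_nonneg n)]
        have : k ≠ 0 := by omega
        exact_mod_cast this
      rw [← h0]
      exact pow_le_pow_left₀ (by linarith) hradlt.le k
    have hN : (NN k (k + 1) n : ℝ) ≤ (2 * (R' : ℝ) ^ k + 1) ^ (k + 1) := by
      have h1 : (NN k (k + 1) n : ℝ) ≤ (2 * (n : ℝ) + 1) ^ (k + 1) := by
        exact_mod_cast (hI k (k + 1) n (by omega)).2
      refine h1.trans (pow_le_pow_left₀ (by positivity) (by linarith) _)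
    have : c * Real.log y * 1 ≤ c * Real.log y * rad k n :=
      mul_le_mul_of_nonneg_left hr1 (by positivity)
    linarith
  · have hlog : Real.log (rad k n) ≤ ((k : ℝ) + 1 + 2 * (k * k)) * y := by
      have h0 : Real.log (rad k n) ≤ Real.log n := by
        apply Real.log_le_log (by linarith)
        unfold rad
        calc (n : ℝ) ^ ((k : ℝ)⁻¹) ≤ (n : ℝ) ^ (1 : ℝ) := by
              apply Real.rpow_le_rpow_of_exponent_le (by exact_mod_cast hn1)
              apply inv_le_one_of_one_le₀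
              have : 1 ≤ k := by omega
              exact_mod_cast this
          _ = n := Real.rpow_one _
      have h1 : Real.log n ≤ Real.log ((k + 1) * (4 : ℝ) ^ (y * (k * k))) :=
        Real.log_le_log (by exact_mod_cast hn1) hn2
      have h2 : Real.log ((k + 1) * (4 : ℝ) ^ (y * (k * k))) =
          Real.log (k + 1) + (y * (k * k)) * Real.log 4 := by
        rw [Real.log_mul (by positivity) (by positivity), Real.log_pow]
        push_cast
        ring
      have h3 : Real.log ((k : ℝ) + 1) ≤ (k + 1) * y := by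
        have h4 : Real.log ((k : ℝ) + 1) ≤ k + 1 := by
          have := Real.log_le_sub_one_of_pos (show (0 : ℝ) < (k : ℝ) + 1 by positivity)
          linarith
        have h5 : (1 : ℝ) ≤ y := by
          have : 1 ≤ y := by omega
          exact_mod_cast this
        nlinarith
      have h6 : Real.log 4 ≤ 2 := by
        have : Real.log 4 = 2 * Real.log 2 := by
          rw [show (4 : ℝ) = 2 ^ 2 by norm_num, Real.log_pow]; push_cast; ring
        have := Real.log_two_lt_d9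
        linarith
      have h7 : (y * (k * k) : ℝ) * Real.log 4 ≤ (y * (k * k)) * 2 :=
        mul_le_mul_of_nonneg_left h6 (by positivity)
      nlinarith
    have hll : Real.log (Real.log (rad k n)) ≤ 2 * Real.log y := by
      rcases (Real.log_nonneg hr1).eq_or_lt with h0 | h0
      · rw [← h0, Real.log_zero]; positivity
      · calc Real.log (Real.log (rad k n)) ≤ Real.log (((k : ℝ) + 1 + 2 * (k * k)) * y) :=
              Real.log_le_log h0 hlog
          _ = Real.log ((k : ℝ) + 1 + 2 * (k * k)) + Real.log y :=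
              Real.log_mul (by positivity) hypos.ne'
          _ ≤ Real.log y + Real.log y := by
              gcongr
              exact hy₂.le.trans (by exact_mod_cast hyy2)
          _ = 2 * Real.log y := by ring
    calc c / 2 * (rad k n * Real.log (Real.log (rad k n)))
        ≤ c / 2 * (rad k n * (2 * Real.log y)) := by gcongr
      _ = c * Real.log y * rad k n := by ring
      _ ≤ NN k (k + 1) n := hn3

/-- the second part of the theorem -/
theorem main2 (hI : S_FIN) (hH : S_HEN) (hF : S_FP) (hP : S_PRD) (hA : S_AVG) (hL : S_LOWP)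
    (hD : S_D1) (hAd : S_ADD) (k : ℕ) (hk : 3 ≤ k) (d : ℕ) (hd : 1 ≤ d) (hdk : d ≤ k + 1) :
    ¬ Upper k d := by
  have key : ¬ Upper k (k + 1) := by
    rintro ⟨C, r₀, h⟩
    obtain ⟨c, hc, hm⟩ := main1 hI hH hF hP hA hL k hk
    obtain ⟨n, hn0, hR, hN⟩ := hm (max r₀ (Real.exp (Real.exp ((|C| + 1) / c))))
    have hr1 := one_le_rad k n hn0
    have hll : (|C| + 1) / c ≤ Real.log (Real.log (rad k n)) := by
      have h1 : Real.exp (Real.exp ((|C| + 1) / c)) ≤ rad k n := (le_max_right _ _).trans hR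
      have h2 : Real.exp ((|C| + 1) / c) ≤ Real.log (rad k n) :=
        (Real.le_log_iff_exp_le (by linarith)).2 h1
      exact (Real.le_log_iff_exp_le (lt_of_lt_of_le (Real.exp_pos _) h2)).2 h2
    have hlow : (|C| + 1) * rad k n ≤ NN k (k + 1) n := by
      refine le_trans ?_ hN
      have : |C| + 1 ≤ c * Real.log (Real.log (rad k n)) := by
        rw [div_le_iff₀ hc] at hll; linarith
      nlinarith
    have hne : (Sph k (k + 1) n).Nonempty := by
      by_contra hne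
      rw [Set.not_nonempty_iff_eq_empty] at hne
      have : NN k (k + 1) n = 0 := by unfold NN; rw [hne, Set.ncard_empty]
      rw [this] at hlow
      have : (0 : ℝ) < (|C| + 1) * rad k n := by positivity
      push_cast at hlow
      linarith
    have hup := h n hn0 hne ((le_max_left _ _).trans hR)
    have hexp : (((k + 1 : ℕ) : ℝ) - (k : ℝ)) = 1 := by push_cast; ring
    rw [hexp, Real.rpow_one] at hup
    have : C * rad k n ≤ |C| * rad k n := mul_le_mul_of_nonneg_right (le_abs_self C) (by linarith)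
    nlinarith
  rcases lt_trichotomy d k with h | h | h
  · exact hD k d hd h
  · subst h
    exact fun hU => key (hAd d (by omega) hU)
  · have : d = k + 1 := by omega
    subst this
    exact key

end Pool.Agent.Lead.MK
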