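import Pool.Agent.Lead.MK.Stubs

/-!
# Project MK, cubes: statements with proofs

Put the proof of `S_X` into `Pool/Agent/Lead/MK/T/X.lean`, namespace `Pool.Agent.Lead.MK.T.X`,
`theorem main : S_X` (assumptions are allowed as hypotheses). Only Mathlib is needed.
-/

set_option autoImplicit false

namespace Pool.Agent.Lead.MK

/-- CUB (130 lines, may assume `S_G1`, `S_G3`): the number of solutions of
`x₁³ + x₂³ + x₃³ + x₄³ = 0` modulo a prime `p ≡ 1 (mod 3)` is `p³ + 6 p (p - 1)`.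
Write `G t = GG 3 p t` (real by G3). `G 0 = p`. For `t ≠ 0` the value `G t` only depends on the class
of `t` modulo cubes (`G (t s³) = G t` for `s ≠ 0`: substitute `y ↦ s y`). Take a generator `g` of
the cyclic group of the `p - 1` units (`IsCyclic (ZMod p)ˣ`), `3 ∣ p - 1`: the units are the `g ^ i`,
`i < p - 1`, `G (g ^ (i + 3)) = G (g ^ i)`, so `∑_{t ≠ 0} F (G t) = (p - 1) / 3 * ∑_{i < 3} F (a i)`,
`a i = G (g ^ i)`, for every `F`. With `F = id`: `∑_t G t = p` (`∑_t ∑_y e(t y³) = p #{y : y³ = 0}`, this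
is `S_G1` with `d = 1`), so `a 0 + a 1 + a 2 = 0`. With `F = square`: `∑_t (G t)² = p #{(x, y) : x³ + y³ = 0}
= p (1 + 3 (p - 1))` (`S_G1` with `d = 2`; for each `x ≠ 0` there are exactly three `y` with
`y³ = -x³`, because there are three cube roots of unity), so `a 0 ² + a 1 ² + a 2 ² = 6 p`. If
`a + b + c = 0` then `a⁴ + b⁴ + c⁴ = (a² + b² + c²)² / 2`, here `18 p²`. So
`∑_t (G t)⁴ = p⁴ + (p - 1) / 3 * 18 p²`, and `Sol 3 4 p = p³ + 6 p (p - 1)` by `S_G1` with `d = 4`.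
Finally `Sol 3 4 p = Prim 3 4 p + 1`. -/
def S_CUB : Prop := ∀ p : ℕ, p.Prime → p % 3 = 1 →
  (p : ℝ) ^ 3 + 6 * (p : ℝ) ^ 2 - 6 * p ≤ (Prim 3 4 p : ℝ) + 1

/-- ME3 (150 lines): `∏_{p ≤ y, p ≡ 1 (mod 3)} (1 - 1 / p)⁻² ≥ c log y`. Let `χ` be the character
modulo 3 (`1, -1, 0` at `n ≡ 1, 2, 0`), `r n = ∑_{d ∣ n} χ d`; `r` is multiplicative and `r n ≥ 0`
(`r (p ^ k) = 1 + χ p + … + χ p ^ k ≥ 0`). As `∑_{d ≤ x} χ d / d ≥ 1 / 2` for all `x ≥ 1` (the partial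
sums `1, 1/2, 1/2, 3/4, …`), `∑_{n ≤ y} r n / n = ∑_{m ≤ y} (1 / m) ∑_{d ≤ y / m} χ d / d
≥ (1 / 2) ∑_{m ≤ y} 1 / m ≥ (1 / 2) log y`. On the other side
`∑_{n ≤ y} r n / n ≤ ∑_{n all prime factors ≤ y} r n / n = ∏_{p ≤ y} ∑_k r (p ^ k) p ^ (-k)
= ∏_{p ≤ y} (1 - 1/p)⁻¹ (1 - χ p / p)⁻¹` (Mathlib:
`EulerProduct.summable_and_hasSum_smoothNumbers_prod_primesBelow_tsum` for `n ↦ r n / n`, or multiply
the two products for the completely multiplicative functions `1 / n`, `χ n / n`: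
`EulerProduct.summable_and_hasSum_smoothNumbers_prod_primesBelow_geometric`). The factor of
`p ≡ 1` is `(1 - 1/p)⁻²`, that of `p = 3` is `3 / 2`, that of `p ≡ 2` is `(1 - p⁻²)⁻¹`, and the product of
the latter is at most `∏_{n ≥ 2} (1 - n⁻²)⁻¹ ≤ 2`. -/
def S_ME3 : Prop := ∃ c : ℝ, 0 < c ∧ ∀ y : ℕ, 2 ≤ y → c * Real.log y ≤
  ∏ p ∈ (Finset.range (y + 1)).filter (fun p => p.Prime ∧ p % 3 = 1), ((1 - 1 / (p : ℝ))⁻¹) ^ 2

/-- the numerator at the prime `p` -/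
noncomputable def aa (p : ℕ) : ℝ := if p % 3 = 1 then 7 else 1

/-- LOW3 (120 lines, from `S_MER` and `S_ME3`): as `S_LOWP` (`Pool/Agent/Lead/MK/T/LOWP.lean` is a
template). For `p > p₀` (`p₀ ≥ K` large in terms of `C`), with `b = C p ^ (-3/2)`:
`1 + 7/p - b ≥ (1 + 1/p) ((1 - 1/p)⁻¹) ^ 6 (1 - L p ^ (-3/2))`, `L = C + 100` or so, because
`(1 - 1/p)⁶ (1 + 7/p) ≥ 1 + 1/p - 100 / p²`; and `1 + 1/p - b ≥ (1 + 1/p) (1 - L p ^ (-3/2))`. The product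
of the factors `1 - L p ^ (-3/2)` is bounded from below by a positive constant, the product of the
factors `1 + 1/p` is `≥ c log y` (`S_MER`, up to the constant factors for `p ≤ p₀`), and that of the
`((1 - 1/p)⁻¹) ^ 6`, `p ≡ 1 (mod 3)`, is the third power of the product in `S_ME3` (up to the factors
for `p ≤ p₀`), so `≥ c (log y)³`. -/
def S_LOW3 : Prop :=
  ∀ (C : ℝ) (K : ℕ), 0 ≤ C → ∃ (c : ℝ) (p₀ : ℕ), 0 < c ∧ K ≤ p₀ ∧
    (∀ p : ℕ, p.Prime → p₀ < p → 0 < 1 + aa p / (p : ℝ) - C * (p : ℝ) ^ (-(3 / 2) : ℝ)) ∧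
    ∀ y : ℕ, p₀ < y → c * Real.log y ^ 4 ≤
      ∏ p ∈ (Finset.Ioc p₀ y).filter Nat.Prime, (1 + aa p / (p : ℝ) - C * (p : ℝ) ^ (-(3 / 2) : ℝ))

end Pool.Agent.Lead.MK
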