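import Pool.Agent.Lead.MK.Asm
import Pool.Agent.Lead.MK.Stubs3

/-!
# Project MK, cubes: assembly
-/

set_option autoImplicit false

namespace Pool.Agent.Lead.MK

open Finset

theorem loc3 (hH : S_HEN) (hC : S_CUB) (p : ℕ) (hp : p.Prime) (hp3 : ¬ p ∣ 3) (C : ℝ) (hC0 : 0 ≤ C)
    (hF : (p : ℝ) ^ 3 * (1 - C * (p : ℝ) ^ (-(3 / 2) : ℝ)) ≤ (Prim 3 4 p : ℝ) + 1) :
    (p : ℝ) ^ (3 * 3) * (1 + aa p / (p : ℝ) - (C + 8) * (p : ℝ) ^ (-(3 / 2) : ℝ)) ≤
      (Sol 3 4 (p ^ 3) : ℝ) := by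
  have hp0 : (0 : ℝ) < p := by exact_mod_cast hp.pos
  have hp1 : (1 : ℝ) ≤ p := by exact_mod_cast hp.one_lt.le
  have hpp : 0 < (p : ℝ) ^ (-(3 / 2) : ℝ) := Real.rpow_pos_of_pos hp0 _
  by_cases h1 : p % 3 = 1
  · have h := hH 3 4 p (by omega) (by omega) hp hp3
    have h' : (p : ℝ) ^ 8 + (Prim 3 4 p : ℝ) * (p : ℝ) ^ 6 ≤ (Sol 3 4 (p ^ 3) : ℝ) := by
      have : p ^ 8 + Prim 3 4 p * p ^ 6 ≤ Sol 3 4 (p ^ 3) := by simpa using h
      exact_mod_cast this
    have h2 := hC p hp h1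
    have ha : aa p = 7 := by unfold aa; rw [if_pos h1]
    rw [ha]
    have h3 : ((p : ℝ) ^ 3 + 6 * (p : ℝ) ^ 2 - 6 * p - 1) * (p : ℝ) ^ 6 ≤
        (Prim 3 4 p : ℝ) * (p : ℝ) ^ 6 := mul_le_mul_of_nonneg_right (by linarith) (by positivity)
    have e1 : (p : ℝ) ^ 7 ≤ (p : ℝ) ^ 9 * (p : ℝ) ^ (-(3 / 2) : ℝ) := by
      rw [← Real.rpow_natCast, ← Real.rpow_natCast, ← Real.rpow_add hp0]
      apply Real.rpow_le_rpow_of_exponent_le hp1
      norm_num
    have e2 : (p : ℝ) ^ 6 ≤ (p : ℝ) ^ 9 * (p : ℝ) ^ (-(3 / 2) : ℝ) := by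
      rw [← Real.rpow_natCast, ← Real.rpow_natCast, ← Real.rpow_add hp0]
      apply Real.rpow_le_rpow_of_exponent_le hp1
      norm_num
    have e3 : (p : ℝ) ^ 9 * (7 / (p : ℝ)) = 7 * (p : ℝ) ^ 8 := by
      field_simp
    have e4 : 0 ≤ (p : ℝ) ^ 9 * (p : ℝ) ^ (-(3 / 2) : ℝ) := by positivity
    calc (p : ℝ) ^ (3 * 3) * (1 + 7 / (p : ℝ) - (C + 8) * (p : ℝ) ^ (-(3 / 2) : ℝ))
        = (p : ℝ) ^ 9 + (p : ℝ) ^ 9 * (7 / (p : ℝ)) -
          (C + 8) * ((p : ℝ) ^ 9 * (p : ℝ) ^ (-(3 / 2) : ℝ)) := by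
          norm_num
          ring
      _ ≤ (p : ℝ) ^ 9 + 7 * (p : ℝ) ^ 8 - 6 * (p : ℝ) ^ 7 - (p : ℝ) ^ 6 := by
          rw [e3]
          nlinarith
      _ = (p : ℝ) ^ 8 + ((p : ℝ) ^ 3 + 6 * (p : ℝ) ^ 2 - 6 * p - 1) * (p : ℝ) ^ 6 := by ring
      _ ≤ _ := by linarith
  · have ha : aa p = 1 := by unfold aa; rw [if_neg h1]
    rw [ha]
    have h := loc hH 3 p le_rfl hp hp3 C hF
    refine le_trans ?_ h
    apply mul_le_mul_of_nonneg_left _ (by positivity)
    nlinarith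

/-- many points on some sphere, in terms of the sieving limit `y` -/
theorem many3 (hH : S_HEN) (hF : S_FP) (hC : S_CUB) (hP : S_PRD) (hA : S_AVG) (hL : S_LOW3) :
    ∃ (c : ℝ) (y₀ : ℕ), 0 < c ∧ 2 ≤ y₀ ∧ ∀ y : ℕ, y₀ ≤ y → ∃ n : ℕ, 1 ≤ n ∧
      (n : ℝ) ≤ 4 * (4 : ℝ) ^ (y * 9) ∧
      c * Real.log y ^ 4 * rad 3 n ≤ NN 3 4 n := by
  obtain ⟨C, hC0, hF⟩ := hF 3 le_rfl
  obtain ⟨c, p₀, hc, hp₀, hpos, hlow⟩ := hL (C + 8) 3 (by linarith)
  obtain ⟨y₁, hy₁⟩ := exists_nat_gt (Real.exp (2 / c + 1))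
  refine ⟨c / 32, max (max y₁ (p₀ + 1)) 2, by positivity, le_max_right _ _, ?_⟩
  intro y hy
  have hy1 : y₁ ≤ y := le_trans (le_trans (le_max_left _ _) (le_max_left _ _)) hy
  have hy2 : p₀ < y := le_trans (le_trans (le_max_right _ _) (le_max_left _ _)) hy
  have hlogge : 2 / c + 1 < Real.log y := by
    have h1 : Real.exp (2 / c + 1) < y := lt_of_lt_of_le hy₁ (by exact_mod_cast hy1)
    rw [Real.lt_log_iff_exp_lt (lt_trans (Real.exp_pos _) h1)]; exact h1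
  have h2c : 0 < 2 / c := by positivity
  have hclog : 2 ≤ c * Real.log y ^ 4 := by
    have h3 : Real.log y ≤ Real.log y ^ 4 := by
      have : (1 : ℝ) ≤ Real.log y := by linarith
      calc Real.log y = Real.log y ^ 1 := by ring
        _ ≤ Real.log y ^ 4 := pow_le_pow_right₀ this (by norm_num)
    have h4 : 2 / c < Real.log y ^ 4 := by linarith
    rw [div_lt_iff₀ hc] at h4
    linarith
  set s := (Ioc p₀ y).filter Nat.Prime with hs
  have hsp : ∀ p ∈ s, p.Prime ∧ p₀ < p := fun p hp => by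
    rw [hs, mem_filter, mem_Ioc] at hp; exact ⟨hp.2, hp.1.1⟩
  set Q := ∏ p ∈ s, p with hQ
  have hQ1 : 1 ≤ Q := Nat.one_le_iff_ne_zero.2 (Finset.prod_ne_zero_iff.2 fun p hp =>
    (hsp p hp).1.ne_zero)
  have hQR : (1 : ℝ) ≤ Q := by exact_mod_cast hQ1
  have hsol : (Q : ℝ) ^ 9 * (c * Real.log y ^ 4) ≤ (Sol 3 4 (Q ^ 3) : ℝ) := by
    rw [hQ, hP 3 4 s fun p hp => (hsp p hp).1]
    push_cast
    rw [← Finset.prod_pow]
    calc (∏ p ∈ s, (p : ℝ) ^ 9) * (c * Real.log y ^ 4)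
        ≤ (∏ p ∈ s, (p : ℝ) ^ 9) *
          ∏ p ∈ s, (1 + aa p / (p : ℝ) - (C + 8) * (p : ℝ) ^ (-(3 / 2) : ℝ)) :=
          mul_le_mul_of_nonneg_left (hlow y hy2) (prod_nonneg fun p _ => by positivity)
      _ = ∏ p ∈ s, ((p : ℝ) ^ 9 *
          (1 + aa p / (p : ℝ) - (C + 8) * (p : ℝ) ^ (-(3 / 2) : ℝ))) := prod_mul_distrib.symm
      _ ≤ ∏ p ∈ s, (Sol 3 4 (p ^ 3) : ℝ) := by
          apply prod_le_prod
          · intro p hp
            exact mul_nonneg (by positivity) (hpos p (hsp p hp).1 (hsp p hp).2).le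
          · intro p hp
            refine loc3 hH hC p (hsp p hp).1 ?_ C hC0 (hF p (hsp p hp).1)
            intro hd
            have := Nat.le_of_dvd (by omega) hd
            have := (hsp p hp).2
            omega
  obtain ⟨n, hn1, hn2, hn3⟩ := hA 3 4 Q (by omega) (by omega) hQ1
  have hQ4 : (Q : ℝ) ≤ (4 : ℝ) ^ y := by
    have h1 : Q ≤ primorial y := by
      rw [hQ, primorial]
      apply Finset.prod_le_prod_of_subset_of_one_le'
      · intro p hp
        rw [hs, mem_filter, mem_Ioc] at hp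
        rw [mem_filter, mem_range]
        exact ⟨by omega, hp.2⟩
      · intro p hp _
        rw [mem_filter] at hp
        exact hp.2.one_lt.le
    have h2 : Q ≤ 4 ^ y := h1.trans (primorial_le_four_pow y)
    exact_mod_cast h2
  have hnQ : (n : ℝ) ≤ 4 * (Q : ℝ) ^ 9 := by
    have : n ≤ 4 * Q ^ 9 := by simpa using hn2
    exact_mod_cast this
  have hrad : rad 3 n ≤ 4 * (Q : ℝ) ^ 3 := by
    have hb : (n : ℝ) ≤ (4 * (Q : ℝ) ^ 3) ^ (3 : ℝ) := by
      rw [show (3 : ℝ) = ((3 : ℕ) : ℝ) by norm_num, Real.rpow_natCast, mul_pow, ← pow_mul]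
      refine hnQ.trans ?_
      have : (0 : ℝ) ≤ (Q : ℝ) ^ (3 * 3) := by positivity
      norm_num at this ⊢
      linarith
    unfold rad
    calc (n : ℝ) ^ (((3 : ℕ) : ℝ)⁻¹) ≤ ((4 * (Q : ℝ) ^ 3) ^ (3 : ℝ)) ^ (((3 : ℕ) : ℝ)⁻¹) :=
          Real.rpow_le_rpow (Nat.cast_nonneg n) hb (by positivity)
      _ = 4 * (Q : ℝ) ^ 3 := by
          rw [show (3 : ℝ) = ((3 : ℕ) : ℝ) by norm_num]
          exact Real.rpow_rpow_inv (by positivity) (by norm_num)
  refine ⟨n, hn1, ?_, ?_⟩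
  · refine hnQ.trans ?_
    apply mul_le_mul_of_nonneg_left _ (by positivity)
    rw [show (4 : ℝ) ^ (y * 9) = ((4 : ℝ) ^ y) ^ 9 from pow_mul _ _ _]
    exact pow_le_pow_left₀ (by positivity) hQ4 _
  · have h1 : (Q : ℝ) ^ 9 * (c * Real.log y ^ 4) - 1 ≤ 4 * (Q : ℝ) ^ 6 * NN 3 4 n := by
      have hn3' : (Sol 3 4 (Q ^ 3) : ℝ) - 1 ≤ 4 * (Q : ℝ) ^ 6 * NN 3 4 n := by
        simpa using hn3
      linarith
    have hQp : (1 : ℝ) ≤ (Q : ℝ) ^ 6 := one_le_pow₀ hQR
    have h2 : (Q : ℝ) ^ 6 * ((Q : ℝ) ^ 3 * (c * Real.log y ^ 4) - 1) ≤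
        (Q : ℝ) ^ 6 * (4 * NN 3 4 n) := by
      have hsplit : (Q : ℝ) ^ 9 = (Q : ℝ) ^ 6 * (Q : ℝ) ^ 3 := by ring
      rw [hsplit] at h1
      nlinarith
    have h3 : (Q : ℝ) ^ 3 * (c * Real.log y ^ 4) - 1 ≤ 4 * NN 3 4 n :=
      le_of_mul_le_mul_left h2 (by linarith)
    have hQk : (1 : ℝ) ≤ (Q : ℝ) ^ 3 := one_le_pow₀ hQR
    have h4 : (Q : ℝ) ^ 3 * (c * Real.log y ^ 4) / 2 ≤ 4 * NN 3 4 n := by
      have : 2 ≤ (Q : ℝ) ^ 3 * (c * Real.log y ^ 4) := by nlinarith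
      linarith
    calc c / 32 * Real.log y ^ 4 * rad 3 n
        ≤ c / 32 * Real.log y ^ 4 * (4 * (Q : ℝ) ^ 3) := by
          apply mul_le_mul_of_nonneg_left hrad
          have : 0 ≤ Real.log y := Real.log_natCast_nonneg y
          positivity
      _ = ((Q : ℝ) ^ 3 * (c * Real.log y ^ 4) / 2) / 4 := by ring
      _ ≤ (4 * NN 3 4 n) / 4 := by gcongr
      _ = NN 3 4 n := by ring

/-- the theorem for cubes -/
theorem main3 (hI : S_FIN) (hH : S_HEN) (hF : S_FP) (hC : S_CUB) (hP : S_PRD) (hA : S_AVG)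
    (hL : S_LOW3) :
    ∃ c : ℝ, 0 < c ∧ ∀ R : ℝ, ∃ n : ℕ, 0 < n ∧ R ≤ rad 3 n ∧
      c * (rad 3 n * Real.log (Real.log (rad 3 n)) ^ 4) ≤ NN 3 4 n := by
  obtain ⟨c, y₀, hc, hy₀, h⟩ := many3 hH hF hC hP hA hL
  refine ⟨c / 16, by positivity, fun R => ?_⟩
  obtain ⟨R', hR'⟩ := exists_nat_gt (max R 1)
  have hR1 : R < R' := lt_of_le_of_lt (le_max_left _ _) hR'
  obtain ⟨y₁, hy₁⟩ := exists_nat_gt (Real.exp ((2 * (R' : ℝ) ^ 3 + 1) ^ 4 / c + 1))
  obtain ⟨y₂, hy₂⟩ := exists_nat_gt ((4 : ℝ) + 1 + 2 * 9)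
  set y := max (max y₀ y₁) y₂ with hy
  have hyy0 : y₀ ≤ y := le_trans (le_max_left _ _) (le_max_left _ _)
  have hyy1 : y₁ ≤ y := le_trans (le_max_right _ _) (le_max_left _ _)
  have hyy2 : y₂ ≤ y := le_max_right _ _
  obtain ⟨n, hn1, hn2, hn3⟩ := h y hyy0
  have hr1 := one_le_rad 3 n hn1
  have hypos : (0 : ℝ) < y := by
    have : 0 < y := by omega
    exact_mod_cast this
  have hly1 : (2 * (R' : ℝ) ^ 3 + 1) ^ 4 / c + 1 < Real.log y := by
    have h1 : Real.exp ((2 * (R' : ℝ) ^ 3 + 1) ^ 4 / c + 1) < y :=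
      lt_of_lt_of_le hy₁ (by exact_mod_cast hyy1)
    exact (Real.lt_log_iff_exp_lt hypos).2 h1
  have hq : 0 ≤ (2 * (R' : ℝ) ^ 3 + 1) ^ 4 / c := by positivity
  have hly : (2 * (R' : ℝ) ^ 3 + 1) ^ 4 < c * Real.log y ^ 4 := by
    have h3 : Real.log y ≤ Real.log y ^ 4 := by
      have : (1 : ℝ) ≤ Real.log y := by linarith
      calc Real.log y = Real.log y ^ 1 := by ring
        _ ≤ Real.log y ^ 4 := pow_le_pow_right₀ this (by norm_num)
    have h2 : (2 * (R' : ℝ) ^ 3 + 1) ^ 4 / c < Real.log y ^ 4 := by linarith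
    rw [div_lt_iff₀ hc] at h2
    linarith
  have hly0 : 0 ≤ Real.log y := Real.log_natCast_nonneg y
  refine ⟨n, by omega, ?_, ?_⟩
  · by_contra hlt
    push Not at hlt
    have hradlt : rad 3 n < R' := lt_trans hlt hR1
    have hnR : (n : ℝ) ≤ (R' : ℝ) ^ 3 := by
      have h0 : (rad 3 n) ^ 3 = n := by
        unfold rad
        rw [← Real.rpow_natCast, Real.rpow_inv_rpow (Nat.cast_nonneg n) (by norm_num)]
      rw [← h0]
      exact pow_le_pow_left₀ (by linarith) hradlt.le 3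
    have hN : (NN 3 4 n : ℝ) ≤ (2 * (R' : ℝ) ^ 3 + 1) ^ 4 := by
      have h1 : (NN 3 4 n : ℝ) ≤ (2 * (n : ℝ) + 1) ^ 4 := by
        exact_mod_cast (hI 3 4 n (by omega)).2
      refine h1.trans (pow_le_pow_left₀ (by positivity) (by linarith) _)
    have : c * Real.log y ^ 4 * 1 ≤ c * Real.log y ^ 4 * rad 3 n :=
      mul_le_mul_of_nonneg_left hr1 (by positivity)
    linarith
  · have hlog : Real.log (rad 3 n) ≤ ((4 : ℝ) + 1 + 2 * 9) * y := by
      have h0 : Real.log (rad 3 n) ≤ Real.log n := by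
        apply Real.log_le_log (by linarith)
        unfold rad
        calc (n : ℝ) ^ (((3 : ℕ) : ℝ)⁻¹) ≤ (n : ℝ) ^ (1 : ℝ) := by
              apply Real.rpow_le_rpow_of_exponent_le (by exact_mod_cast hn1)
              norm_num
          _ = n := Real.rpow_one _
      have h1 : Real.log n ≤ Real.log (4 * (4 : ℝ) ^ (y * 9)) :=
        Real.log_le_log (by exact_mod_cast hn1) hn2
      have h2 : Real.log (4 * (4 : ℝ) ^ (y * 9)) = Real.log 4 + (y * 9) * Real.log 4 := by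
        rw [Real.log_mul (by positivity) (by positivity), Real.log_pow]
        push_cast
        ring
      have h5 : (1 : ℝ) ≤ y := by
        have : 1 ≤ y := by omega
        exact_mod_cast this
      have h6 : Real.log 4 ≤ 2 := by
        have : Real.log 4 = 2 * Real.log 2 := by
          rw [show (4 : ℝ) = 2 ^ 2 by norm_num, Real.log_pow]; push_cast; ring
        have := Real.log_two_lt_d9
        linarith
      have h7 : (y * 9 : ℝ) * Real.log 4 ≤ (y * 9) * 2 :=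
        mul_le_mul_of_nonneg_left h6 (by positivity)
      nlinarith
    have hll : Real.log (Real.log (rad 3 n)) ^ 4 ≤ (2 * Real.log y) ^ 4 := by
      rcases (Real.log_nonneg hr1).eq_or_lt with h0 | h0
      · rw [← h0, Real.log_zero]
        have : (0 : ℝ) ≤ (2 * Real.log y) ^ 4 := by positivity
        simpa using this
      · -- `log log` may be negative
        have hup : Real.log (Real.log (rad 3 n)) ≤ 2 * Real.log y := by
          calc Real.log (Real.log (rad 3 n)) ≤ Real.log (((4 : ℝ) + 1 + 2 * 9) * y) :=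
                Real.log_le_log h0 hlog
            _ = Real.log ((4 : ℝ) + 1 + 2 * 9) + Real.log y :=
                Real.log_mul (by positivity) hypos.ne'
            _ ≤ Real.log y + Real.log y := by
                gcongr
                exact hy₂.le.trans (by exact_mod_cast hyy2)
            _ = 2 * Real.log y := by ring
        -- `n ≥ 2`, so `rad 3 n ≥ 2 ^ (1/3)`, `log rad ≥ log 2 / 3`
        have hn2' : 2 ≤ n := by
          by_contra hlt
          have : n = 1 := by omega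
          rw [this] at h0
          unfold rad at h0
          simp at h0
        have hlow1 : Real.log 2 / 3 ≤ Real.log (rad 3 n) := by
          unfold rad
          rw [Real.log_rpow (by positivity)]
          have : Real.log 2 ≤ Real.log n := Real.log_le_log (by norm_num) (by exact_mod_cast hn2')
          push_cast
          linarith
        have hlow2 : -(2 * Real.log y) ≤ Real.log (Real.log (rad 3 n)) := by
          have hl2 := Real.log_two_gt_d9
          have h8 : (1 : ℝ) / 5 ≤ Real.log (rad 3 n) := by linarith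
          have h9 : Real.log (1 / 5) ≤ Real.log (Real.log (rad 3 n)) :=
            Real.log_le_log (by norm_num) h8
          have h10 : Real.log (1 / 5) = -Real.log 5 := by
            rw [one_div, Real.log_inv]
          have h11 : Real.log 5 ≤ Real.log y := by
            apply Real.log_le_log (by norm_num)
            have : (4 : ℝ) + 1 + 2 * 9 < y := lt_of_lt_of_le hy₂ (by exact_mod_cast hyy2)
            linarith
          linarith
        have habs : |Real.log (Real.log (rad 3 n))| ≤ 2 * Real.log y := abs_le.2 ⟨hlow2, hup⟩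
        calc Real.log (Real.log (rad 3 n)) ^ 4 = |Real.log (Real.log (rad 3 n))| ^ 4 := by
              rw [pow_abs, abs_of_nonneg (by positivity)]
          _ ≤ (2 * Real.log y) ^ 4 := pow_le_pow_left₀ (abs_nonneg _) habs 4
    calc c / 16 * (rad 3 n * Real.log (Real.log (rad 3 n)) ^ 4)
        ≤ c / 16 * (rad 3 n * (2 * Real.log y) ^ 4) := by gcongr
      _ = c * Real.log y ^ 4 * rad 3 n := by ring
      _ ≤ NN 3 4 n := hn3

end Pool.Agent.Lead.MK
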