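import Mathlib

/-!
# Lattice points on arithmetic k-spheres in dimension k + 1

Definitions for the project MK (`MP_927be3_nt`).
-/

set_option autoImplicit false

namespace Pool.Agent.Lead.MK

/-- the integer points of the `k`-sphere in dimension `d` of radius `r`, where `r ^ k = n` -/
def Sph (k d n : ℕ) : Set (Fin d → ℤ) := {m | ∑ i, |m i| ^ k = (n : ℤ)}

/-- the number of these points -/
noncomputable def NN (k d n : ℕ) : ℕ := (Sph k d n).ncard

/-- the radius `r = n ^ (1 / k)` -/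
noncomputable def rad (k n : ℕ) : ℝ := (n : ℝ) ^ ((k : ℝ)⁻¹)

/-- the upper bound `N_{k,d}(r) ≤ C r ^ (d - k)` for all radii `r ≥ r₀` of nonempty spheres -/
def Upper (k d : ℕ) : Prop :=
  ∃ C r₀ : ℝ, ∀ n : ℕ, 0 < n → (Sph k d n).Nonempty → r₀ ≤ rad k n →
    (NN k d n : ℝ) ≤ C * rad k n ^ ((d : ℝ) - k)

/-- the lower bound `c r ^ (d - k) ≤ N_{k,d}(r)` for all radii `r ≥ r₀` of nonempty spheres -/
def Lower (k d : ℕ) : Prop :=
  ∃ c r₀ : ℝ, 0 < c ∧ ∀ n : ℕ, 0 < n → (Sph k d n).Nonempty → r₀ ≤ rad k n →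
    c * rad k n ^ ((d : ℝ) - k) ≤ (NN k d n : ℝ)

/-- the number of solutions of `x₁ ^ k + … + x_d ^ k = 0` modulo `q` -/
noncomputable def Sol (k d q : ℕ) : ℕ := Nat.card {x : Fin d → ZMod q // ∑ i, x i ^ k = 0}

/-- the number of nonzero solutions modulo `q` -/
noncomputable def Prim (k d q : ℕ) : ℕ :=
  Nat.card {x : Fin d → ZMod q // x ≠ 0 ∧ ∑ i, x i ^ k = 0}

/-- the exponential sum `∑ e(t y ^ k / p)` -/
noncomputable def GG (k p : ℕ) [NeZero p] (t : ZMod p) : ℂ :=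
  ∑ y : ZMod p, ZMod.stdAddChar (t * y ^ k)

end Pool.Agent.Lead.MK
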