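import Pool.Agent.Lead.MK.Asm
import Pool.Agent.Lead.MK.T.FIN
import Pool.Agent.Lead.MK.T.HEN
import Pool.Agent.Lead.MK.T.G1
import Pool.Agent.Lead.MK.T.G2
import Pool.Agent.Lead.MK.T.G3
import Pool.Agent.Lead.MK.T.FP
import Pool.Agent.Lead.MK.T.CRT
import Pool.Agent.Lead.MK.T.PRD
import Pool.Agent.Lead.MK.T.AVG
import Pool.Agent.Lead.MK.T.MER
import Pool.Agent.Lead.MK.T.LOWP

/-!
# Project MK: final theorem
-/

set_option autoImplicit false

namespace Pool.Agent.Lead.MK.Fin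

theorem main : ∀ k : ℕ, 3 ≤ k → ∃ c : ℝ, 0 < c ∧ ∀ R : ℝ, ∃ n : ℕ, 0 < n ∧ R ≤ rad k n ∧
      c * (rad k n * Real.log (Real.log (rad k n))) ≤ NN k (k + 1) n := by
  intro k hk
  exact main1 T.FIN.main T.HEN.main (T.FP.main T.G1.main T.G2.main T.G3.main)
    T.PRD.main (T.AVG.main T.FIN.main) T.LOWP.main k hk

end Pool.Agent.Lead.MK.Fin
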