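import Pool.Agent.Lead.MK.Asm3
import Pool.Agent.Lead.MK.T.FIN
import Pool.Agent.Lead.MK.T.HEN
import Pool.Agent.Lead.MK.T.G1
import Pool.Agent.Lead.MK.T.G2
import Pool.Agent.Lead.MK.T.G3
import Pool.Agent.Lead.MK.T.FP
import Pool.Agent.Lead.MK.T.CRT
import Pool.Agent.Lead.MK.T.PRD
import Pool.Agent.Lead.MK.T.AVG
import Pool.Agent.Lead.MK.T.MER
import Pool.Agent.Lead.MK.T.LOWP
import Pool.Agent.Lead.MK.T.CUB
import Pool.Agent.Lead.MK.T.ME3
import Pool.Agent.Lead.MK.T.LOW3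

/-!
# Project MK: final theorem
-/

set_option autoImplicit false

namespace Pool.Agent.Lead.MK.Fin3

theorem main : ∀ k : ℕ, 3 ≤ k → ∃ c : ℝ, 0 < c ∧ ∀ R : ℝ, ∃ n : ℕ, 0 < n ∧ R ≤ rad k n ∧
      c * (rad k n * Real.log (Real.log (rad k n)) ^ (if k = 3 then 4 else 1)) ≤ NN k (k + 1) n := by
  intro k hk
  by_cases h3 : k = 3
  · subst h3
    simpa using main3 T.FIN.main T.HEN.main (T.FP.main T.G1.main T.G2.main T.G3.main)
      (T.CUB.main T.G1.main T.G3.main) T.PRD.main (T.AVG.main T.FIN.main)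
      (T.LOW3.main T.MER.main T.ME3.main)
  · rw [if_neg h3]
    simpa using main1 T.FIN.main T.HEN.main (T.FP.main T.G1.main T.G2.main T.G3.main)
      T.PRD.main (T.AVG.main T.FIN.main) T.LOWP.main k hk

end Pool.Agent.Lead.MK.Fin3
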