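import Pool.Agent.Lead.MK.Defs

/-!
# Project MK: statements with proofs

Put the proof of `S_X` into `Pool/Agent/Lead/MK/T/X.lean`, namespace `Pool.Agent.Lead.MK.T.X`,
`theorem main : S_X`. Only Mathlib is needed.
-/

set_option autoImplicit false

namespace Pool.Agent.Lead.MK

/-- FIN (15 lines): `|m i| ^ k ≤ n` gives `|m i| ≤ n` (for `k ≥ 1`), so `Sph` is a subset of
`Set.pi univ (Icc (-n) n)`. Also the bound for the number of points. -/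
def S_FIN : Prop :=
  ∀ k d n : ℕ, 1 ≤ k → (Sph k d n).Finite ∧ NN k d n ≤ (2 * n + 1) ^ d

/-- HEN (120 lines): Hensel. The vectors `p y`, `y` modulo `p ^ (k - 1)`, are solutions modulo
`p ^ k`, all `≡ 0 (mod p)`. Let `x` be a nonzero solution modulo `p`, `i` the first index with
`x i ≠ 0`; lift the other coordinates arbitrarily (`p ^ ((k - 1) (d - 1))` ways), let `a` be the sum
of their `k`-th powers. The map `z ↦ z ^ k + a` from `{z : ZMod (p ^ k) | z ≡ x i (mod p)}` to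
`{w | w ≡ 0 (mod p)}` is injective (`z ^ k - w ^ k = (z - w) (z ^ (k - 1) + … + w ^ (k - 1))`, the
second factor is `≡ k x i ^ (k - 1) ≠ 0`, a unit), both sets have `p ^ (k - 1)` elements, so it hits
`0`. All these solutions are different (their reductions or their other coordinates differ). -/
def S_HEN : Prop :=
  ∀ k d p : ℕ, 1 ≤ k → 1 ≤ d → p.Prime → ¬ p ∣ k →
    p ^ ((k - 1) * d) + Prim k d p * p ^ ((k - 1) * (d - 1)) ≤ Sol k d (p ^ k)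

/-- G1 (50 lines): orthogonality of additive characters:
`∑_t ∑_x e(t (x₁^k + … + x_d^k)) = p #{x : ∑ x_i^k = 0}` and the inner sum is `G(t)^d`
(`Finset.prod_univ_sum`/`Fintype.piFinset`, `AddChar.sum_eq_zero_of_ne_one`, `AddChar.sum_mulShift`). -/
def S_G1 : Prop :=
  ∀ (k d p : ℕ) [Fact p.Prime], (p : ℂ) * (Sol k d p : ℂ) = ∑ t : ZMod p, GG k p t ^ d

/-- G2 (110 lines): elementary bound `|G(t)| ≤ k √p` for `t ≠ 0`, `k ≥ 1`: `G(t s^k) = G(t)` for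
`s ≠ 0`; so with `H` the group of nonzero `k`-th powers, `|H| = (p-1)/e`, `e = gcd(k, p-1) ≤ k`,
`|H| |G(t)|² ≤ ∑_{u ≠ 0} |G(u)|² = ∑_{u} |G(u)|² - p² = p #{(x, y) : x^k = y^k} - p²
= p (1 + (p - 1) e) - p² = p (p - 1)(e - 1)`. (It is enough to count: for given `x ≠ 0` there are at
most `k` and, the same number for all `x`, `e` solutions `y` of `y^k = x^k`, and `e |H| = p - 1`
where `H` is the image of `x ↦ x^k` on the units.) -/
def S_G2 : Prop :=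
  ∀ (k p : ℕ) [Fact p.Prime], 1 ≤ k → ∀ t : ZMod p, t ≠ 0 → ‖GG k p t‖ ≤ k * √(p : ℝ)

/-- G3 (15 lines): for odd `k` the sum `G(t)` is real (replace `y` by `-y`; the conjugate of
`stdAddChar a` is `stdAddChar (-a)`). -/
def S_G3 : Prop :=
  ∀ (k p : ℕ) [Fact p.Prime], Odd k → ∀ t : ZMod p, (GG k p t).im = 0

/-- FP (70 lines): from G1, G2, G3 with `d = k + 1`: `p Sol = p^d + ∑_{t ≠ 0} G(t)^d` (`G(0) = p`).
For odd `k`, `d` is even and `G(t)^d ≥ 0`: `Sol ≥ p^k`, `C = 0`. For even `k ≥ 4`: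
`Sol ≥ p^k - k^(k+1) p^((k+1)/2) ≥ p^k (1 - k^(k+1) p^(-3/2))`. And `Sol = Prim + 1` (the zero
solution, `k ≥ 1`). -/
def S_FP : Prop :=
  ∀ k : ℕ, 3 ≤ k → ∃ C : ℝ, 0 ≤ C ∧ ∀ p : ℕ, p.Prime →
    (p : ℝ) ^ k * (1 - C * (p : ℝ) ^ (-(3 / 2) : ℝ)) ≤ (Prim k (k + 1) p : ℝ) + 1

/-- CRT (30 lines): `ZMod.chineseRemainder`. -/
def S_CRT : Prop :=
  ∀ k d a b : ℕ, 1 ≤ a → 1 ≤ b → Nat.Coprime a b → Sol k d (a * b) = Sol k d a * Sol k d b

/-- PRD (30 lines, from CRT): induction on `s`; `Sol k d 1 = 1`. -/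
def S_PRD : Prop :=
  ∀ (k d : ℕ) (s : Finset ℕ), (∀ p ∈ s, p.Prime) →
    Sol k d ((∏ p ∈ s, p) ^ k) = ∏ p ∈ s, Sol k d (p ^ k)

/-- AVG (90 lines, uses FIN): the solutions modulo `Q ^ k` have unique representatives `x` with
`0 ≤ x i < Q ^ k`; `∑ x i ^ k = Q ^ k m` with `m ≤ d Q ^ (k k - k)`, and `x` is a point of
`Sph k d (Q ^ k m)`; `m = 0` only for `x = 0`. So `Sol - 1 ≤ ∑_{1 ≤ m ≤ d Q ^ (k k - k)} NN (Q^k m)`,
and some term is at least the average. -/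
def S_AVG : Prop :=
  ∀ k d Q : ℕ, 2 ≤ k → 1 ≤ d → 1 ≤ Q → ∃ n : ℕ, 1 ≤ n ∧ n ≤ d * Q ^ (k * k) ∧
    (Sol k d (Q ^ k) : ℝ) - 1 ≤ d * (Q : ℝ) ^ (k * k - k) * NN k d n

/-- MER (70 lines): `∏_{p ≤ y} (1 - 1/p)⁻¹ ≥ ∑_{n ≤ y} 1/n ≥ log y` (every `n ≤ y` is a product of
primes `≤ y`; Mathlib: `EulerProduct`, `Nat.smoothNumbers`, or several helper libraries have it), and
`∏ (1 - p⁻²) ≥ ∏_{n = 2}^{y} (1 - n⁻²) ≥ 1/2`. -/
def S_MER : Prop :=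
  ∃ c : ℝ, 0 < c ∧ ∀ y : ℕ, 2 ≤ y →
    c * Real.log y ≤ ∏ p ∈ (Finset.range (y + 1)).filter Nat.Prime, (1 + 1 / (p : ℝ))

/-- LOWP (80 lines, from MER): choose `p₀ ≥ K` so large that `C p^(-3/2) ≤ 1/(2p) ≤ 1/2` for `p > p₀`
(that is `p ≥ 4 C²`). Then `1 + 1/p - C p^(-3/2) ≥ (1 + 1/p)(1 - C p^(-3/2)) > 0`, the product of the
second factors is at least `exp (-2 C ∑ p^(-3/2)) > 0` (summable), and the product of `1 + 1/p` over
`p ≤ p₀` is a constant. -/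
def S_LOWP : Prop :=
  ∀ (C : ℝ) (K : ℕ), 0 ≤ C → ∃ (c : ℝ) (p₀ : ℕ), 0 < c ∧ K ≤ p₀ ∧
    (∀ p : ℕ, p.Prime → p₀ < p → 0 < 1 + 1 / (p : ℝ) - C * (p : ℝ) ^ (-(3 / 2) : ℝ)) ∧
    ∀ y : ℕ, p₀ < y → c * Real.log y ≤
      ∏ p ∈ (Finset.Ioc p₀ y).filter Nat.Prime, (1 + 1 / (p : ℝ) - C * (p : ℝ) ^ (-(3 / 2) : ℝ))

/-- D1 (40 lines, uses FIN): for `1 ≤ d < k` the point `(t, 0, …, 0)` lies on the sphere with
`n = t ^ k`, `rad k n = t`, so `1 ≤ NN ≤ C t ^ (d - k)` for all large `t`, and the right side tends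
to `0`. -/
def S_D1 : Prop := ∀ k d : ℕ, 1 ≤ d → d < k → ¬ Upper k d

/-- ADD (100 lines, uses FIN): `NN k (k+1) n = ∑_{x : |x|^k ≤ n} NN k k (n - |x|^k)` (last or first
coordinate, `Fin.consEquiv`), there are at most `2 rad k n + 1` such `x`, and
`NN k k n' ≤ max C (max of NN k k over the n' with rad k n' < r₀)` for all `n'` (`NN k k 0 = 1`). So
`NN k (k+1) n ≤ C' (2 rad k n + 1) ≤ 3 C' rad k n` (`rad ≥ 1`). Use `C r₀` of `Upper k k`, where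
`rad ^ (k - k) = 1`. -/
def S_ADD : Prop := ∀ k : ℕ, 1 ≤ k → Upper k k → Upper k (k + 1)

end Pool.Agent.Lead.MK
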